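import Pool.Agent.H32.PR.Main

set_option autoImplicit false

open Metric Pool.Agent.H40.Pluri Pool.Agent.H32.PR

namespace Pool.Agent.Results.MP_dd9b03_an.OrderOneHalf

/-- `E ⊆ ℂⁿ` is pluriregular: `V^*(·, E)` is a (finite-valued) continuous function on `ℂⁿ`. -/
def Pluriregular {n : ℕ} (E : Set (EuclideanSpace ℂ (Fin n))) : Prop :=
  ∃ f : EuclideanSpace ℂ (Fin n) → ℝ, Continuous f ∧ ∀ z, greenVStar E z = (f z : EReal)

/-- `V(·, E)` is finite, equal to `V^*(·, E)` and Hölder continuous of order `α` on all of `ℂⁿ`. -/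
def HolderGreen {n : ℕ} (E : Set (EuclideanSpace ℂ (Fin n))) (α : ℝ) : Prop :=
  ∃ (f : EuclideanSpace ℂ (Fin n) → ℝ) (A : ℝ), (∀ z w, |f z - f w| ≤ A * ‖z - w‖ ^ α) ∧
    ∀ z, greenV E z = (f z : EReal) ∧ greenVStar E z = (f z : EReal)

/-- Q1 has an affirmative answer, with the optimal order of Hölder continuity. Let `M ⊆ ℂⁿ` be a
generic embedded real submanifold of class `C^m`, `m ≥ 1` (the question has `m = 2`).
(1) For every relatively compact domain `D` with `C^1`-smooth boundary in `M`, `closure D` is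
pluriregular, `V(·, closure D) = V^*(·, closure D)` is Hölder continuous of every order `α < 1/2`
on `ℂⁿ` and, if `m ≥ 2`, of order `1/2`.
(2) The same holds for every nonempty compact `E ⊆ M` with interior cones in `M`.
(3) For every `n ≥ 1` the order `1/2` is optimal in (1): there are a generic `M ⊆ ℂⁿ` of class
`C^m` for all `m` and a domain `D` with `C^1`-smooth boundary in `M` such that `V(·, closure D)`
is not Hölder continuous of any order `α > 1/2`. -/
theorem result (n : ℕ) :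
    (∀ (m : ℕ) (M D : Set (EuclideanSpace ℂ (Fin n))), 1 ≤ m → IsSubmanifold m M → IsGeneric M →
      IsC1Domain M D → Pluriregular (closure D) ∧
        (∀ α : ℝ, 0 < α → α < 1 / 2 → HolderGreen (closure D) α) ∧
        (2 ≤ m → HolderGreen (closure D) (1 / 2))) ∧
    (∀ (m : ℕ) (M E : Set (EuclideanSpace ℂ (Fin n))), 1 ≤ m → IsSubmanifold m M → IsGeneric M →
      IsCompact E → E.Nonempty → E ⊆ M → HasCones M E → Pluriregular E ∧
        (∀ α : ℝ, 0 < α → α < 1 / 2 → HolderGreen E α) ∧ (2 ≤ m → HolderGreen E (1 / 2))) ∧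
    (1 ≤ n → ∃ M D : Set (EuclideanSpace ℂ (Fin n)), (∀ m : ℕ, IsSubmanifold m M) ∧ IsGeneric M ∧
      IsC1Domain M D ∧ ∀ α : ℝ, 1 / 2 < α → ¬ HolderGreen (closure D) α) := by
  have key : ∀ (m : ℕ) (M E : Set (EuclideanSpace ℂ (Fin n))), 1 ≤ m → IsSubmanifold m M →
      IsGeneric M → IsCompact E → E.Nonempty → E ⊆ M → HasCones M E → Pluriregular E ∧
        (∀ α : ℝ, 0 < α → α < 1 / 2 → HolderGreen E α) ∧ (2 ≤ m → HolderGreen E (1 / 2)) := by
    intro m M E hm hM hG hE hne hEM hcones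
    refine ⟨?_, fun α hα hα1 => ?_, fun hm2 => ?_⟩
    · obtain ⟨h1, h2, -⟩ := cones_small hm hM hG hE hne hEM hcones (α := 1 / 4) (by norm_num)
        (by norm_num)
      exact ⟨W E, h2, fun z => (h1 z).2⟩
    · obtain ⟨h1, -, A, h3⟩ := cones_small hm hM hG hE hne hEM hcones hα hα1
      exact ⟨W E, A, h3, h1⟩
    · obtain ⟨h1, -, A, h3⟩ := cones_half hm2 hM hG hE hne hEM hcones
      exact ⟨W E, A, h3, h1⟩
  refine ⟨fun m M D hm hM hG hD => key m M _ hm hM hG hD.isCompact_closure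
    hD.isConnected.nonempty.closure hD.closure_subset (hasCones_closure hm hM hD), key, ?_⟩
  intro hn
  refine ⟨RealSpace n, RealSpace n ∩ ball 0 1, fun m => isSubmanifold_real m n, isGeneric_real n,
    isC1Domain_ball n, ?_⟩
  rintro α hα ⟨f, A, hf, hV⟩
  rw [closure_ball_real] at hV
  refine not_holder (⟨0, hn⟩ : Fin n) (E := RealSpace n ∩ closedBall 0 1) ?_ ?_ hα
    (fun z => (hV z).1) hf
  · rintro z ⟨hz, hz1⟩
    rw [mem_closedBall_zero_iff] at hz1
    refine ⟨(z ⟨0, hn⟩).re, ?_, ?_⟩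
    · exact (Complex.abs_re_le_norm _).trans ((PiLp.norm_apply_le z _).trans hz1)
    · apply Complex.ext
      · simp
      · simpa using hz ⟨0, hn⟩
  · refine ⟨fun j => ?_, ?_⟩
    · by_cases hj : j = ⟨0, hn⟩ <;> simp [hj]
    · simp

end Pool.Agent.Results.MP_dd9b03_an.OrderOneHalf
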